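import Pool.Agent.W2helper58.PW.Stm

/-!
# Project PW (helper58), piece COR (helper16)
-/

set_option autoImplicit false

namespace Pool.Agent.W2helper16.PW.Cor

open Pool.Agent.W2helper58.PW

section

variable {R S K C : Type}

open Classical in
/-- one value of the table of ciphertexts replaced -/
noncomputable def upd (g : K → Bool → S → C) (k : K) (b : Bool) (s : S) (z : C) :
    K → Bool → S → C :=
  fun k' b' s' => if k' = k ∧ b' = b ∧ s' = s then z else g k' b' s'

theorem upd_same (g : K → Bool → S → C) (k : K) (b : Bool) (s : S) (z : C) :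
    upd g k b s z k b s = z := by
  simp [upd]

theorem upd_other (g : K → Bool → S → C) (k : K) (b : Bool) (s : S) (z : C) (s' : S) :
    upd g k b s z k (!b) s' = g k (!b) s' := by
  unfold upd
  rw [if_neg]
  rintro ⟨-, h, -⟩
  cases b <;> simp at h

theorem upd_upd (g : K → Bool → S → C) (k : K) (b : Bool) (s : S) (z z' : C) :
    upd (upd g k b s z) k b s z' = upd g k b s z' := by
  funext k' b' s'
  unfold upd
  by_cases h : k' = k ∧ b' = b ∧ s' = s
  · rw [if_pos h, if_pos h]
  · rw [if_neg h, if_neg h, if_neg h]

theorem upd_self (g : K → Bool → S → C) (k : K) (b : Bool) (s : S) :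
    upd g k b s (g k b s) = g := by
  funext k' b' s'
  unfold upd
  by_cases h : k' = k ∧ b' = b ∧ s' = s
  · rw [if_pos h]
    obtain ⟨rfl, rfl, rfl⟩ := h
    rfl
  · rw [if_neg h]

open Classical in
/-- the collisions are few -/
theorem card_coll [Fintype S] [Fintype K] [Fintype C] (k : K) (s s' : S) :
    (Finset.univ.filter fun g : K → Bool → S → C => g k false s = g k true s').card *
      Fintype.card C ≤ Fintype.card (K → Bool → S → C) := by
  have h1 : ((Finset.univ.filter fun g : K → Bool → S → C => g k false s = g k true s') ×ˢ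
      (Finset.univ : Finset C)).card ≤ (Finset.univ : Finset (K → Bool → S → C)).card := by
    apply Finset.card_le_card_of_injOn (fun x => upd x.1 k false s x.2)
    · intro x _
      exact Finset.mem_coe.2 (Finset.mem_univ _)
    · rintro ⟨g, z⟩ hg ⟨g', z'⟩ hg' h
      simp only [Finset.coe_product, Set.mem_prod, Finset.mem_coe, Finset.mem_filter,
        Finset.mem_univ, true_and, and_true] at hg hg'
      simp only at h
      have hz : z = z' := by
        have := congrArg (fun g : K → Bool → S → C => g k false s) h
        simpa only [upd_same] using this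
      have ht : g k true s' = g' k true s' := by
        have := congrArg (fun g : K → Bool → S → C => g k true s') h
        simpa only [show true = !false from rfl, upd_other] using this
      have e : upd g k false s (g k false s) = upd g' k false s (g' k false s) := by
        rw [hg, hg', ← ht, ← upd_upd g k false s z, h, upd_upd]
      rw [upd_self, upd_self] at e
      rw [e, hz]
  rwa [Finset.card_product, Finset.card_univ, Finset.card_univ] at h1

end

theorem p_cor : P_cor := by
  classical
  intro R S K C _ _ _ _ N hR hS hC hN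
  have hN0 : (0 : ℝ) < (N : ℝ) := by exact_mod_cast hN
  have h1 : ∀ T : Tab R S K C, ∀ r : R, ∀ s : S,
      (if isD T r (T.2 (T.1 r) false s) then (1 : ℝ) else 0) ≤
      ∑ s' : S, (if T.2 (T.1 r) false s = T.2 (T.1 r) true s' then (1 : ℝ) else 0) := by
    intro T r s
    have h0 : ∀ s' ∈ (Finset.univ : Finset S),
        (0 : ℝ) ≤ (if T.2 (T.1 r) false s = T.2 (T.1 r) true s' then (1 : ℝ) else 0) := by
      intro s' _
      split_ifs <;> norm_num
    by_cases hd : isD T r (T.2 (T.1 r) false s)
    · rw [if_pos hd]
      obtain ⟨s', hs'⟩ := hd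
      have h2 := Finset.single_le_sum h0 (Finset.mem_univ s')
      rw [if_pos hs'] at h2
      exact h2
    · rw [if_neg hd]
      exact Finset.sum_nonneg h0
  have h2 : ∀ (r : R) (s s' : S),
      ∑ T : Tab R S K C, (if T.2 (T.1 r) false s = T.2 (T.1 r) true s' then (1 : ℝ) else 0) ≤
      Fintype.card (Tab R S K C) / (N : ℝ) ^ 3 := by
    intro r s s'
    rw [Fintype.sum_prod_type]
    have h3 : ∀ f : R → K, ∑ g : K → Bool → S → C,
        (if g (f r) false s = g (f r) true s' then (1 : ℝ) else 0) ≤
        Fintype.card (K → Bool → S → C) / (N : ℝ) ^ 3 := by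
      intro f
      rw [Finset.sum_boole, le_div_iff₀ (by positivity)]
      have h4 := card_coll (C := C) (f r) s s'
      rw [hC] at h4
      exact_mod_cast h4
    calc ∑ f : R → K, ∑ g : K → Bool → S → C,
          (if g (f r) false s = g (f r) true s' then (1 : ℝ) else 0)
        ≤ ∑ f : R → K, (Fintype.card (K → Bool → S → C) / (N : ℝ) ^ 3) :=
          Finset.sum_le_sum fun f _ => h3 f
      _ = Fintype.card (Tab R S K C) / (N : ℝ) ^ 3 := by
          rw [Finset.sum_const, nsmul_eq_mul, Finset.card_univ]
          unfold Tab
          rw [Fintype.card_prod]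
          push_cast
          ring
  calc ∑ T : Tab R S K C, ∑ r : R, ∑ s : S,
        (if isD T r (T.2 (T.1 r) false s) then (1 : ℝ) else 0)
      ≤ ∑ T : Tab R S K C, ∑ r : R, ∑ s : S, ∑ s' : S,
          (if T.2 (T.1 r) false s = T.2 (T.1 r) true s' then (1 : ℝ) else 0) :=
        Finset.sum_le_sum fun T _ => Finset.sum_le_sum fun r _ => Finset.sum_le_sum fun s _ =>
          h1 T r s
    _ = ∑ r : R, ∑ s : S, ∑ s' : S, ∑ T : Tab R S K C,
          (if T.2 (T.1 r) false s = T.2 (T.1 r) true s' then (1 : ℝ) else 0) := by
        rw [Finset.sum_comm]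
        refine Finset.sum_congr rfl fun r _ => ?_
        rw [Finset.sum_comm]
        refine Finset.sum_congr rfl fun s _ => ?_
        rw [Finset.sum_comm]
    _ ≤ ∑ r : R, ∑ s : S, ∑ s' : S, (Fintype.card (Tab R S K C) / (N : ℝ) ^ 3) :=
        Finset.sum_le_sum fun r _ => Finset.sum_le_sum fun s _ => Finset.sum_le_sum fun s' _ =>
          h2 r s s'
    _ = Fintype.card (Tab R S K C) := by
        simp only [Finset.sum_const, nsmul_eq_mul, Finset.card_univ, hR, hS]
        field_simp

end Pool.Agent.W2helper16.PW.Cor
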