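import Pool.Agent.W2helper58.PW.Stm

/-!
# Project PW (helper58), piece SEC3 (helper16)
-/

set_option autoImplicit false

namespace Pool.Agent.W2helper16.PW.Sec3

open Pool.Agent.W2helper58.PW

section

variable {R S K C : Type}

open Classical in
/-- the two ciphertexts for the public key of `r` and the random string `s` are exchanged -/
noncomputable def tau (r : R) (s : S) (T : Tab R S K C) : Tab R S K C :=
  (T.1, fun k b s' => if k = T.1 r ∧ s' = s then T.2 k (!b) s' else T.2 k b s')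

theorem tau_invol (r : R) (s : S) : Function.Involutive (tau r s : Tab R S K C → Tab R S K C) := by
  intro T
  refine Prod.ext rfl ?_
  funext k b s'
  unfold tau
  simp only
  by_cases h : k = T.1 r ∧ s' = s
  · rw [if_pos h, if_pos h, Bool.not_not]
  · rw [if_neg h, if_neg h]

theorem tau_same (r : R) (s : S) (T : Tab R S K C) (b : Bool) :
    (tau r s T).2 (T.1 r) b s = T.2 (T.1 r) (!b) s := by
  unfold tau
  simp

theorem tau_other (r : R) (s : S) (T : Tab R S K C) (k : K) (b : Bool) (s' : S)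
    (h : ¬ (k = T.1 r ∧ s' = s)) : (tau r s T).2 k b s' = T.2 k b s' := by
  unfold tau
  simp only
  rw [if_neg h]

/-- the tables agree outside `Zq T r s` -/
theorem agr_tau (r : R) (s : S) (T : Tab R S K C) (q : Qn R S K C) (hq : ¬ Zq T r s q) :
    Agr T (tau r s T) q := by
  cases q with
  | p r' => rfl
  | e k b s' =>
    change (tau r s T).2 k b s' = T.2 k b s'
    exact tau_other r s T k b s' hq
  | d r' c =>
    change (isD (tau r s T) r' c ↔ isD T r' c)
    have h1 : T.1 r' ≠ T.1 r := hq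
    have h2 : ∀ s' : S, (tau r s T).2 ((tau r s T).1 r') true s' = T.2 (T.1 r') true s' := by
      intro s'
      exact tau_other r s T (T.1 r') true s' fun h => h1 h.1
    unfold isD
    constructor
    · rintro ⟨s', h⟩
      exact ⟨s', h.trans (h2 s')⟩
    · rintro ⟨s', h⟩
      exact ⟨s', h.trans (h2 s').symm⟩

end

section

variable {R S K C : Type} {t : ℕ}

open Classical in
/-- acceptance as a number -/
noncomputable def oo (a : Adv R S K C t) (T : Tab R S K C) (r : R) (s : S) (b : Bool) : ℝ :=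
  if a.out (T.1 r) (T.2 (T.1 r) b s) T then 1 else 0

open Classical in
/-- the bad event for one set of questions -/
noncomputable def bad (a : Adv R S K C t) (T : Tab R S K C) (r : R) (s : S) (r' : R) (s' : S)
    (b : Bool) : ℝ :=
  if ∃ q ∈ a.Q (T.1 r') (T.2 (T.1 r') b s') T, Zq T r s q then 1 else 0

theorem oo_nonneg (a : Adv R S K C t) (T : Tab R S K C) (r : R) (s : S) (b : Bool) :
    0 ≤ oo a T r s b := by
  unfold oo
  split_ifs <;> norm_num

theorem oo_le (a : Adv R S K C t) (T : Tab R S K C) (r : R) (s : S) (b : Bool) :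
    oo a T r s b ≤ 1 := by
  unfold oo
  split_ifs <;> norm_num

theorem bad_nonneg (a : Adv R S K C t) (T : Tab R S K C) (r : R) (s : S) (r' : R) (s' : S)
    (b : Bool) : 0 ≤ bad a T r s r' s' b := by
  unfold bad
  split_ifs <;> norm_num

/-- without bad questions the answers of the adversary are unchanged -/
theorem out_tau (a : Adv R S K C t) (T : Tab R S K C) (r : R) (s : S) (r' : R) (s' : S)
    (b : Bool) (h : ¬ ∃ q ∈ a.Q (T.1 r') (T.2 (T.1 r') b s') T, Zq T r s q) :
    a.out (T.1 r') (T.2 (T.1 r') b s') (tau r s T) ↔ a.out (T.1 r') (T.2 (T.1 r') b s') T := by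
  refine (a.loc (T.1 r') (T.2 (T.1 r') b s') T (tau r s T) ?_).2
  intro q hq
  exact agr_tau r s T q fun hz => h ⟨q, hq, hz⟩

theorem oo_tau_same (a : Adv R S K C t) (T : Tab R S K C) (r : R) (s : S) (b : Bool)
    (h : ¬ ∃ q ∈ a.Q (T.1 r) (T.2 (T.1 r) (!b) s) T, Zq T r s q) :
    oo a (tau r s T) r s b = oo a T r s (!b) := by
  unfold oo
  have h1 : (tau r s T).1 r = T.1 r := rfl
  rw [h1, tau_same]
  have h2 := out_tau a T r s r s (!b) h
  by_cases h3 : a.out (T.1 r) (T.2 (T.1 r) (!b) s) T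
  · rw [if_pos h3, if_pos (h2.2 h3)]
  · rw [if_neg h3, if_neg fun h4 => h3 (h2.1 h4)]

theorem oo_tau_other (a : Adv R S K C t) (T : Tab R S K C) (r : R) (s : S) (r' : R) (s' : S)
    (b : Bool) (hs : s' ≠ s) (h : ¬ ∃ q ∈ a.Q (T.1 r') (T.2 (T.1 r') b s') T, Zq T r s q) :
    oo a (tau r s T) r' s' b = oo a T r' s' b := by
  unfold oo
  have h1 : (tau r s T).1 r' = T.1 r' := rfl
  have h5 : (tau r s T).2 (T.1 r') b s' = T.2 (T.1 r') b s' :=
    tau_other r s T (T.1 r') b s' fun h => hs h.2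
  rw [h1, h5]
  have h2 := out_tau a T r s r' s' b h
  by_cases h3 : a.out (T.1 r') (T.2 (T.1 r') b s') T
  · rw [if_pos h3, if_pos (h2.2 h3)]
  · rw [if_neg h3, if_neg fun h4 => h3 (h2.1 h4)]

theorem bad_eq (a : Adv R S K C t) (T : Tab R S K C) (r : R) (s : S) (r' : R) (s' : S)
    (b : Bool) (h : ∃ q ∈ a.Q (T.1 r') (T.2 (T.1 r') b s') T, Zq T r s q) :
    bad a T r s r' s' b = 1 := by
  unfold bad
  rw [if_pos h]

open Classical in
/-- one pair of summands -/
theorem pair_le (a a' : Adv R S K C t) (T : Tab R S K C) (r : R) (s : S) (r' : R) (s' : S) :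
    ((oo a T r s true - oo a T r s false) * (oo a' T r' s' true - oo a' T r' s' false) +
      (oo a (tau r s T) r s true - oo a (tau r s T) r s false) *
        (oo a' (tau r s T) r' s' true - oo a' (tau r s T) r' s' false)) / 2 ≤
    bad a T r s r s true + bad a T r s r s false + bad a' T r s r' s' true +
      bad a' T r s r' s' false + (if s' = s then 1 else 0) := by
  have p1 := bad_nonneg a T r s r s true
  have p2 := bad_nonneg a T r s r s false
  have p3 := bad_nonneg a' T r s r' s' true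
  have p4 := bad_nonneg a' T r s r' s' false
  have p5 : (0 : ℝ) ≤ (if s' = s then 1 else 0) := by split_ifs <;> norm_num
  have gen : ∀ x y z w : ℝ, 0 ≤ x → x ≤ 1 → 0 ≤ y → y ≤ 1 → 0 ≤ z → z ≤ 1 → 0 ≤ w → w ≤ 1 →
      (x - y) * (z - w) ≤ 1 := by
    intro x y z w a1 a2 b1 b2 c1 c2 d1 d2
    have h1 : |x - y| ≤ 1 := abs_le.2 ⟨by linarith, by linarith⟩
    have h2 : |z - w| ≤ 1 := abs_le.2 ⟨by linarith, by linarith⟩
    calc (x - y) * (z - w) ≤ |(x - y) * (z - w)| := le_abs_self _
      _ = |x - y| * |z - w| := abs_mul _ _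
      _ ≤ 1 * 1 := mul_le_mul h1 h2 (abs_nonneg _) zero_le_one
      _ = 1 := one_mul 1
  have q1 := gen _ _ _ _ (oo_nonneg a T r s true) (oo_le a T r s true)
    (oo_nonneg a T r s false) (oo_le a T r s false) (oo_nonneg a' T r' s' true)
    (oo_le a' T r' s' true) (oo_nonneg a' T r' s' false) (oo_le a' T r' s' false)
  have q2 := gen _ _ _ _ (oo_nonneg a (tau r s T) r s true) (oo_le a (tau r s T) r s true)
    (oo_nonneg a (tau r s T) r s false) (oo_le a (tau r s T) r s false)
    (oo_nonneg a' (tau r s T) r' s' true) (oo_le a' (tau r s T) r' s' true)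
    (oo_nonneg a' (tau r s T) r' s' false) (oo_le a' (tau r s T) r' s' false)
  by_cases b1 : ∃ q ∈ a.Q (T.1 r) (T.2 (T.1 r) true s) T, Zq T r s q
  · have := bad_eq a T r s r s true b1
    linarith
  by_cases b2 : ∃ q ∈ a.Q (T.1 r) (T.2 (T.1 r) false s) T, Zq T r s q
  · have := bad_eq a T r s r s false b2
    linarith
  by_cases b3 : ∃ q ∈ a'.Q (T.1 r') (T.2 (T.1 r') true s') T, Zq T r s q
  · have := bad_eq a' T r s r' s' true b3
    linarith
  by_cases b4 : ∃ q ∈ a'.Q (T.1 r') (T.2 (T.1 r') false s') T, Zq T r s q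
  · have := bad_eq a' T r s r' s' false b4
    linarith
  by_cases b5 : s' = s
  · rw [if_pos b5]
    linarith
  · rw [oo_tau_same a T r s true b2, oo_tau_same a T r s false b1,
      oo_tau_other a' T r s r' s' true b5 b3, oo_tau_other a' T r s r' s' false b5 b4]
    have e : ((oo a T r s true - oo a T r s false) * (oo a' T r' s' true - oo a' T r' s' false) +
        (oo a T r s (!true) - oo a T r s (!false)) *
          (oo a' T r' s' true - oo a' T r' s' false)) / 2 = 0 := by
      simp only [Bool.not_true, Bool.not_false]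
      ring
    rw [e]
    linarith

open Classical in
/-- the sum over the tables of one pair of summands -/
theorem sum_pair [Fintype R] [Fintype S] [Fintype K] [Fintype C] (a a' : Adv R S K C t)
    (r : R) (s : S) (r' : R) (s' : S) :
    ∑ T : Tab R S K C,
      (oo a T r s true - oo a T r s false) * (oo a' T r' s' true - oo a' T r' s' false) ≤
    ∑ T : Tab R S K C, bad a T r s r s true + ∑ T : Tab R S K C, bad a T r s r s false +
      ∑ T : Tab R S K C, bad a' T r s r' s' true + ∑ T : Tab R S K C, bad a' T r s r' s' false +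
      (if s' = s then 1 else 0) * Fintype.card (Tab R S K C) := by
  set g : Tab R S K C → ℝ := fun T =>
    (oo a T r s true - oo a T r s false) * (oo a' T r' s' true - oo a' T r' s' false) with hg
  have h1 : ∑ T : Tab R S K C, g (tau r s T) = ∑ T : Tab R S K C, g T :=
    Equiv.sum_comp (tau_invol r s).toPerm g
  have h2 : ∑ T : Tab R S K C, g T = ∑ T : Tab R S K C, (g T + g (tau r s T)) / 2 := by
    rw [← Finset.sum_div, Finset.sum_add_distrib, h1]
    ring
  rw [h2]
  have h3 := Finset.sum_le_sum fun (T : Tab R S K C) (_ : T ∈ Finset.univ) =>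
    pair_le a a' T r s r' s'
  refine h3.trans (le_of_eq ?_)
  simp only [Finset.sum_add_distrib, Finset.sum_const, nsmul_eq_mul, Finset.card_univ]
  ring

end

theorem comm3 {A B D : Type} [Fintype A] [Fintype B] [Fintype D] (f : A → B → D → ℝ) :
    ∑ b, ∑ d, ∑ a, f a b d = ∑ a, ∑ b, ∑ d, f a b d := by
  have h1 : ∀ b, ∑ d, ∑ a, f a b d = ∑ a, ∑ d, f a b d := fun b => Finset.sum_comm
  simp only [h1]
  exact Finset.sum_comm

theorem sumI {R S W : Type} [Fintype R] [Fintype S] [Fintype W] (F : R → S → W → ℝ) :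
    ∑ p : R × S × W, F p.1 p.2.1 p.2.2 = ∑ i, ∑ r, ∑ s, F r s i := by
  rw [← comm3 (fun i r s => F r s i), Fintype.sum_prod_type]
  refine Finset.sum_congr rfl fun r _ => ?_
  rw [Fintype.sum_prod_type]

theorem p_sec3 : P_sec3 := by
  classical
  intro H1 H2 R S K C W _ _ _ _ _ N t a hR hS hK hN
  have hN0 : (1 : ℝ) ≤ (N : ℝ) := by exact_mod_cast hN
  set M : ℝ := (Fintype.card (Tab R S K C) : ℝ) with hM
  have hM0 : 0 ≤ M := Nat.cast_nonneg _
  set w : ℝ := (Fintype.card W : ℝ) with hw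
  have hw0 : 0 ≤ w := Nat.cast_nonneg _
  -- the two security statements
  have G1 : ∀ (i : W) (b : Bool),
      ∑ r : R, ∑ s : S, ∑ T : Tab R S K C, bad (a i) T r s r s b ≤ (t * N + 1) * M := by
    intro i b
    rw [comm3 (fun (T : Tab R S K C) r s => bad (a i) T r s r s b)]
    exact H1 R S K C N t (a i) b hR hS hK hN
  have G2 : ∀ (i : W) (b : Bool) (r' : R) (s' : S),
      ∑ r : R, ∑ s : S, ∑ T : Tab R S K C, bad (a i) T r s r' s' b ≤ (t * N + N) * M := by
    intro i b r' s'
    rw [comm3 (fun (T : Tab R S K C) r s => bad (a i) T r s r' s' b)]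
    exact H2 R S K C N t (a i) b r' s' hR hS hK hN
  -- the sum over the pairs of triples
  set X : Tab R S K C → R × S × W → ℝ := fun T p =>
    oo (a p.2.2) T p.1 p.2.1 true - oo (a p.2.2) T p.1 p.2.1 false with hX
  have e1 : ∀ T : Tab R S K C, (∑ r : R, ∑ s : S, ∑ i : W,
      ((if (a i).out (T.1 r) (T.2 (T.1 r) true s) T then (1 : ℝ) else 0) -
        (if (a i).out (T.1 r) (T.2 (T.1 r) false s) T then (1 : ℝ) else 0))) = ∑ p, X T p := by
    intro T
    rw [Fintype.sum_prod_type]
    refine Finset.sum_congr rfl fun r _ => ?_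
    rw [Fintype.sum_prod_type]
    refine Finset.sum_congr rfl fun s _ => Finset.sum_congr rfl fun i _ => ?_
    simp only [hX, oo]
  have e2 : ∑ T : Tab R S K C, (∑ r : R, ∑ s : S, ∑ i : W,
      ((if (a i).out (T.1 r) (T.2 (T.1 r) true s) T then (1 : ℝ) else 0) -
        (if (a i).out (T.1 r) (T.2 (T.1 r) false s) T then (1 : ℝ) else 0))) ^ 2 =
      ∑ p, ∑ q, ∑ T : Tab R S K C, X T p * X T q := by
    rw [comm3 (fun (T : Tab R S K C) p q => X T p * X T q)]
    refine Finset.sum_congr rfl fun T _ => ?_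
    rw [e1 T, sq, Finset.sum_mul_sum]
  rw [e2]
  have e3 : ∀ p q : R × S × W, ∑ T : Tab R S K C, X T p * X T q ≤
      ((∑ T : Tab R S K C, bad (a p.2.2) T p.1 p.2.1 p.1 p.2.1 true +
      ∑ T : Tab R S K C, bad (a p.2.2) T p.1 p.2.1 p.1 p.2.1 false) +
      (∑ T : Tab R S K C, bad (a q.2.2) T p.1 p.2.1 q.1 q.2.1 true +
      ∑ T : Tab R S K C, bad (a q.2.2) T p.1 p.2.1 q.1 q.2.1 false)) +
      (if q.2.1 = p.2.1 then 1 else 0) * M := by
    intro p q
    have h := sum_pair (a p.2.2) (a q.2.2) p.1 p.2.1 q.1 q.2.1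
    linarith
  refine (Finset.sum_le_sum fun p _ => Finset.sum_le_sum fun q _ => e3 p q).trans ?_
  simp only [Finset.sum_add_distrib]
  have cI : ((Finset.univ : Finset (R × S × W)).card : ℝ) = N * (N * w) := by
    rw [Finset.card_univ, Fintype.card_prod, Fintype.card_prod, hR, hS]
    push_cast
    rfl
  -- the first two terms
  have f1 : ∀ b : Bool, ∑ p : R × S × W, ∑ _q : R × S × W,
      ∑ T : Tab R S K C, bad (a p.2.2) T p.1 p.2.1 p.1 p.2.1 b ≤
      (N * (N * w)) * (w * ((t * N + 1) * M)) := by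
    intro b
    have h1 : ∑ p : R × S × W, ∑ _q : R × S × W,
        ∑ T : Tab R S K C, bad (a p.2.2) T p.1 p.2.1 p.1 p.2.1 b =
        (N * (N * w)) * ∑ p : R × S × W,
          ∑ T : Tab R S K C, bad (a p.2.2) T p.1 p.2.1 p.1 p.2.1 b := by
      rw [Finset.mul_sum]
      refine Finset.sum_congr rfl fun p _ => ?_
      rw [Finset.sum_const, nsmul_eq_mul, cI]
    rw [h1]
    apply mul_le_mul_of_nonneg_left _ (by positivity)
    have h2 : ∑ p : R × S × W, ∑ T : Tab R S K C, bad (a p.2.2) T p.1 p.2.1 p.1 p.2.1 b =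
        ∑ i : W, ∑ r : R, ∑ s : S, ∑ T : Tab R S K C, bad (a i) T r s r s b :=
      sumI (fun r s i => ∑ T : Tab R S K C, bad (a i) T r s r s b)
    rw [h2]
    refine (Finset.sum_le_sum fun i _ => G1 i b).trans (le_of_eq ?_)
    rw [Finset.sum_const, nsmul_eq_mul, Finset.card_univ]
  have f2 : ∀ b : Bool, ∑ p : R × S × W, ∑ q : R × S × W,
      ∑ T : Tab R S K C, bad (a q.2.2) T p.1 p.2.1 q.1 q.2.1 b ≤
      (N * (N * w)) * (w * ((t * N + N) * M)) := by
    intro b
    rw [Finset.sum_comm]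
    have h3 : ∀ q : R × S × W, ∑ p : R × S × W,
        ∑ T : Tab R S K C, bad (a q.2.2) T p.1 p.2.1 q.1 q.2.1 b ≤ w * ((t * N + N) * M) := by
      intro q
      have h2 : ∑ p : R × S × W, ∑ T : Tab R S K C, bad (a q.2.2) T p.1 p.2.1 q.1 q.2.1 b =
          ∑ i : W, ∑ r : R, ∑ s : S, ∑ T : Tab R S K C, bad (a q.2.2) T r s q.1 q.2.1 b :=
        sumI (fun r s (_ : W) => ∑ T : Tab R S K C, bad (a q.2.2) T r s q.1 q.2.1 b)
      rw [h2]
      refine (Finset.sum_le_sum fun i _ => G2 q.2.2 b q.1 q.2.1).trans (le_of_eq ?_)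
      rw [Finset.sum_const, nsmul_eq_mul, Finset.card_univ]
    refine (Finset.sum_le_sum fun q _ => h3 q).trans (le_of_eq ?_)
    rw [Finset.sum_const, nsmul_eq_mul, cI]
  have f3 : ∑ p : R × S × W, ∑ q : R × S × W, ((if q.2.1 = p.2.1 then 1 else 0) * M) =
      (N * (N * w)) * (N * w * M) := by
    have h4 : ∀ p : R × S × W, ∑ q : R × S × W, ((if q.2.1 = p.2.1 then 1 else 0) * M) =
        N * w * M := by
      intro p
      rw [← Finset.sum_mul]
      have h6 : ∑ q : R × S × W, (if q.2.1 = p.2.1 then (1 : ℝ) else 0) =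
          ∑ _i : W, ∑ _r : R, ∑ s : S, (if s = p.2.1 then (1 : ℝ) else 0) :=
        sumI (fun _ s _ => if s = p.2.1 then (1 : ℝ) else 0)
      rw [h6]
      simp only [Finset.sum_ite_eq', Finset.mem_univ, if_true, Finset.sum_const, Finset.card_univ,
        nsmul_eq_mul, hR]
      ring
    rw [Finset.sum_congr rfl fun p _ => h4 p, Finset.sum_const, nsmul_eq_mul, cI]
  have g1 := f1 true
  have g2 := f1 false
  have g3 := f2 true
  have g4 := f2 false
  rw [f3]
  have key : 2 * ((N * (N * w)) * (w * ((t * N + 1) * M))) +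
      2 * ((N * (N * w)) * (w * ((t * N + N) * M))) + (N * (N * w)) * (N * w * M) ≤
      (4 * t + 5) * (N : ℝ) ^ 3 * w ^ 2 * M := by
    have h5 : 0 ≤ (N : ℝ) ^ 2 * w ^ 2 * M * (N - 1) := by
      have : (0 : ℝ) ≤ N - 1 := by linarith
      positivity
    nlinarith
  linarith

end Pool.Agent.W2helper16.PW.Sec3
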